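import Pool.Agent.Lib.MP_caa638_lc.Defs
import Pool.Agent.Lib.MP_caa638_lc.PolyDP

set_option autoImplicit false

namespace Pool.Agent.Results.MP_caa638_lc.PolyTime

open Pool.Agent.Lib.MP_caa638_lc

/-- On two processors, a schedule of minimum makespan of unit tasks with precedence constraints
and unit communication delays is computable in polynomial time. -/
theorem result :
    ∃ f : List (List ℕ) → List (ℕ × ℕ), N68a2faeb.IsPolyTime f ∧
      ∀ G : List (List ℕ), Acyclic G →
        ∃ (π : Fin G.length → Fin 2) (S : Fin G.length → ℕ), IsSchedule 2 G π S ∧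
          f G = List.ofFn (fun j => ((π j : ℕ), S j)) ∧
          ∀ (π' : Fin G.length → Fin 2) (S' : Fin G.length → ℕ), IsSchedule 2 G π' S' →
            makespan S ≤ makespan S' :=
  ⟨Poly.alg 2 (6 * 2 + 6), (Poly.alg_PT 2 (6 * 2 + 6)).isPolyTime,
    fun _ hG => Poly.alg_spec (m := 2) Nat.two_pos hG⟩

end Pool.Agent.Results.MP_caa638_lc.PolyTime
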